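import Pool.Agent.H2.MVQ.Main

/-!
MP_6c2603_co.  For all `n ≥ 4` the redundancies `(n + 1) γ - 2 ^ n` and `(n + 1) χ - 2 ^ n` of
`γ = gamma(Q_n)` and `χ = chi_{mu_2}(Q_n)` over the sphere covering bound differ at most by the factor
`2 (n - 1) / (n - 3)`; the same over the van Wee bound for even `n ≥ 8`.
-/

namespace Pool.Agent.Results.MP_6c2603_co.GapBound

open Pool.Agent.H2.MVQ

theorem result :
    (∀ n : ℕ, 4 ≤ n → ((n : ℤ) - 3) * (((n : ℤ) + 1) * dom (Q n) - 2 ^ n) ≤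
      2 * ((n : ℤ) - 1) * (((n : ℤ) + 1) * chi (Q n) - 2 ^ n)) ∧
    ∀ n : ℕ, Even n → 8 ≤ n → ((n : ℤ) ^ 2 - 8 * n + 8) * ((n : ℤ) * dom (Q n) - 2 ^ n) ≤
      (2 * (n : ℤ) ^ 2 - 8 * n + 8) * ((n : ℤ) * chi (Q n) - 2 ^ n) :=
  ⟨fun _ hn => gap hn, fun _ he hn => gap_even he hn⟩

end Pool.Agent.Results.MP_6c2603_co.GapBound
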