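import Pool.Agent.H2.MVQ.Main

/-!
MP_6c2603_co.  `chi_{mu_2}(Q_n) = gamma(Q_n)` for `n = 2 ^ k` and `n = 2 ^ k - 1`; the lower bound
`chi_{mu_2}(Q_n) ≥ 2 ^ n / n` for all even `n ≥ 8`.
-/

namespace Pool.Agent.Results.MP_6c2603_co.PowersOfTwo

open Pool.Agent.H2.MVQ

theorem result :
    (∀ n k : ℕ, n = 2 ^ k ∨ n + 1 = 2 ^ k → chi (Q n) = dom (Q n)) ∧
      ∀ n : ℕ, Even n → 8 ≤ n → 2 ^ n ≤ n * chi (Q n) := by
  refine ⟨?_, fun n hn h8 => van_wee hn h8⟩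
  rintro n k (rfl | h)
  · exact eq_pow k
  · exact eq_pow_sub_one h

end Pool.Agent.Results.MP_6c2603_co.PowersOfTwo
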